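import Pool.Agent.H365.TF.Stm

/-!
# Property (T) passes to subgroups of finite index
-/

set_option autoImplicit false

namespace Pool.Agent.H365.TF

open Pool.Agent.W661.RC (HasT)

namespace TFIaux

noncomputable section

variable {G : Type} [Group G] (N : Subgroup G)

/-- representatives -/
def rp (x : G ⧸ N) : G := Quotient.out x

theorem rp_mk (x : G ⧸ N) : ((rp N x : G) : G ⧸ N) = x := Quotient.out_eq' x

theorem cc_mem (g : G) (x : G ⧸ N) : (rp N (g • x))⁻¹ * (g * rp N x) ∈ N := by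
  rw [← QuotientGroup.eq, rp_mk]
  show g • x = g • ((rp N x : G) : G ⧸ N)
  rw [rp_mk]

/-- the cocycle -/
def cc (g : G) (x : G ⧸ N) : N := ⟨(rp N (g • x))⁻¹ * (g * rp N x), cc_mem N g x⟩

theorem cc_mul (g g' : G) (x : G ⧸ N) : cc N (g * g') x = cc N g (g' • x) * cc N g' x := by
  refine Subtype.ext ?_
  show (rp N ((g * g') • x))⁻¹ * (g * g' * rp N x) =
    ((rp N (g • g' • x))⁻¹ * (g * rp N (g' • x))) * ((rp N (g' • x))⁻¹ * (g' * rp N x))
  rw [mul_smul]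
  group

theorem cc_one (x : G ⧸ N) : cc N 1 x = 1 := by
  refine Subtype.ext ?_
  show (rp N ((1 : G) • x))⁻¹ * (1 * rp N x) = 1
  rw [one_smul]
  group

theorem cc_conj (n : N) (x : G ⧸ N) :
    (rp N x * n * (rp N x)⁻¹) • x = x ∧ cc N (rp N x * n * (rp N x)⁻¹) x = n := by
  have h : (rp N x * n * (rp N x)⁻¹) • x = x := by
    have h0 : (rp N x * n * (rp N x)⁻¹) • x =
        (rp N x * n * (rp N x)⁻¹) • ((rp N x : G) : G ⧸ N) := by rw [rp_mk]
    rw [h0]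
    show ((rp N x * n * (rp N x)⁻¹ * rp N x : G) : G ⧸ N) = x
    have h1 : ((rp N x * n * (rp N x)⁻¹ * rp N x : G) : G ⧸ N) = ((rp N x : G) : G ⧸ N) := by
      rw [QuotientGroup.eq]
      have e : (rp N x * (n : G) * (rp N x)⁻¹ * rp N x)⁻¹ * rp N x = (n : G)⁻¹ := by group
      rw [e]
      exact N.inv_mem n.2
    rw [h1, rp_mk]
  refine ⟨h, Subtype.ext ?_⟩
  show (rp N ((rp N x * n * (rp N x)⁻¹) • x))⁻¹ * (rp N x * n * (rp N x)⁻¹ * rp N x) = (n : G)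
  rw [h]
  group

variable {H : Type} [NormedAddCommGroup H] [InnerProductSpace ℂ H] [Fintype (G ⧸ N)]

/-- the induced representation, one element -/
def U (L : N →* (H ≃ₗᵢ[ℂ] H)) (g : G) :
    PiLp 2 (fun _ : G ⧸ N => H) ≃ₗᵢ[ℂ] PiLp 2 (fun _ : G ⧸ N => H) :=
  (LinearIsometryEquiv.piLpCongrRight 2 (fun x => L (cc N g x))).trans
    (LinearIsometryEquiv.piLpCongrLeft 2 ℂ H (MulAction.toPerm g))

theorem U_apply (L : N →* (H ≃ₗᵢ[ℂ] H)) (g : G) (ψ : PiLp 2 (fun _ : G ⧸ N => H))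
    (x : G ⧸ N) : U N L g ψ (g • x) = L (cc N g x) (ψ x) := by
  have h : (MulAction.toPerm g : Equiv.Perm (G ⧸ N)).symm (g • x) = x := by
    rw [Equiv.symm_apply_eq]
    rfl
  show L (cc N g ((MulAction.toPerm g : Equiv.Perm (G ⧸ N)).symm (g • x)))
    (ψ ((MulAction.toPerm g : Equiv.Perm (G ⧸ N)).symm (g • x))) = _
  rw [h]

/-- the induced representation -/
def UU (L : N →* (H ≃ₗᵢ[ℂ] H)) :
    G →* (PiLp 2 (fun _ : G ⧸ N => H) ≃ₗᵢ[ℂ] PiLp 2 (fun _ : G ⧸ N => H)) where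
  toFun := U N L
  map_one' := by
    refine LinearIsometryEquiv.ext fun ψ => ?_
    refine PiLp.ext fun y => ?_
    have h := U_apply N L 1 ψ y
    rw [one_smul, cc_one, map_one] at h
    exact h
  map_mul' g g' := by
    refine LinearIsometryEquiv.ext fun ψ => ?_
    refine PiLp.ext fun y => ?_
    obtain ⟨x, rfl⟩ : ∃ x, y = (g * g') • x := ⟨(g * g')⁻¹ • y, by rw [smul_inv_smul]⟩
    have h1 := U_apply N L (g * g') ψ x
    have h2 := U_apply N L g (U N L g' ψ) (g' • x)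
    have h3 := U_apply N L g' ψ x
    rw [h1, cc_mul, map_mul]
    show L (cc N g (g' • x)) (L (cc N g' x) (ψ x)) = U N L g (U N L g' ψ) ((g * g') • x)
    rw [mul_smul, h2, h3]

end

end TFIaux

open TFIaux in
theorem t_TFI : S_TFI := by
  intro G _ N _ hT H _ _ _ π hπ
  have : Fintype (G ⧸ N) := Fintype.ofFinite _
  let L : N →* (H ≃ₗᵢ[ℂ] H) := Unitary.linearIsometryEquiv.toMonoidHom.comp π
  have hL : ∀ (n : N) (v : H), L n v = (π n : H →L[ℂ] H) v := fun n v => rfl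
  let PI : G →* unitary (PiLp 2 (fun _ : G ⧸ N => H) →L[ℂ] PiLp 2 (fun _ : G ⧸ N => H)) :=
    Unitary.linearIsometryEquiv.symm.toMonoidHom.comp (UU N L)
  have hPI : ∀ (g : G) ψ (x : G ⧸ N), ((PI g : PiLp 2 (fun _ : G ⧸ N => H) →L[ℂ]
      PiLp 2 (fun _ : G ⧸ N => H)) ψ) (g • x) = (π (cc N g x) : H →L[ℂ] H) (ψ x) :=
    fun g ψ x => U_apply N L g ψ x
  obtain ⟨ψ, hψ0, hψ⟩ := hT (PiLp 2 (fun _ : G ⧸ N => H)) PI (by
    classical
    intro K ε hε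
    obtain ⟨v, hv1, hv⟩ := hπ ((K ×ˢ (Finset.univ : Finset (G ⧸ N))).image
      (fun p => cc N p.1 p.2)) ε hε
    have hm : (0 : ℝ) < Fintype.card (G ⧸ N) := Nat.cast_pos.2 Fintype.card_pos
    obtain ⟨c, hc⟩ : ∃ c : ℝ, c = (√(Fintype.card (G ⧸ N) : ℝ))⁻¹ := ⟨_, rfl⟩
    have hc2 : c ^ 2 = (Fintype.card (G ⧸ N) : ℝ)⁻¹ := by
      rw [hc, inv_pow, Real.sq_sqrt hm.le]
    have hcn : ‖(c : ℂ)‖ ^ 2 = (Fintype.card (G ⧸ N) : ℝ)⁻¹ := by
      rw [Complex.norm_real, Real.norm_eq_abs, sq_abs, hc2]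
    refine ⟨WithLp.toLp 2 (fun _ => (c : ℂ) • v), ?_, fun g hg => ?_⟩
    · have h1 : ‖(WithLp.toLp 2 (fun _ => (c : ℂ) • v) : PiLp 2 (fun _ : G ⧸ N => H))‖ ^ 2 = 1 := by
        rw [PiLp.norm_sq_eq_of_L2]
        have h2 : ∀ x : G ⧸ N, ‖(WithLp.toLp 2 (fun _ => (c : ℂ) • v) :
            PiLp 2 (fun _ : G ⧸ N => H)) x‖ ^ 2 = (Fintype.card (G ⧸ N) : ℝ)⁻¹ := by
          intro x
          show ‖(c : ℂ) • v‖ ^ 2 = _
          rw [norm_smul, hv1, mul_one, hcn]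
        rw [Finset.sum_congr rfl fun x _ => h2 x, Finset.sum_const, Finset.card_univ,
          nsmul_eq_mul, mul_inv_cancel₀ hm.ne']
      exact (pow_eq_one_iff_of_nonneg (norm_nonneg _) two_ne_zero).1 h1
    · refine lt_of_pow_lt_pow_left₀ 2 hε.le ?_
      rw [PiLp.norm_sq_eq_of_L2, ← Equiv.sum_comp (MulAction.toPerm g : Equiv.Perm (G ⧸ N))]
      have h2 : ∀ x : G ⧸ N, ‖(((PI g : PiLp 2 (fun _ : G ⧸ N => H) →L[ℂ]
          PiLp 2 (fun _ : G ⧸ N => H)) (WithLp.toLp 2 (fun _ => (c : ℂ) • v))) -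
            (WithLp.toLp 2 (fun _ => (c : ℂ) • v) : PiLp 2 (fun _ : G ⧸ N => H)))
            ((MulAction.toPerm g : Equiv.Perm (G ⧸ N)) x)‖ ^ 2 <
              (Fintype.card (G ⧸ N) : ℝ)⁻¹ * ε ^ 2 := by
        intro x
        have h3 := hPI g (WithLp.toLp 2 (fun _ => (c : ℂ) • v)) x
        have h4 : (((PI g : PiLp 2 (fun _ : G ⧸ N => H) →L[ℂ]
          PiLp 2 (fun _ : G ⧸ N => H)) (WithLp.toLp 2 (fun _ => (c : ℂ) • v))) -
            (WithLp.toLp 2 (fun _ => (c : ℂ) • v) : PiLp 2 (fun _ : G ⧸ N => H)))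
            ((MulAction.toPerm g : Equiv.Perm (G ⧸ N)) x) =
            (c : ℂ) • ((π (cc N g x) : H →L[ℂ] H) v - v) := by
          rw [PiLp.sub_apply, smul_sub]
          refine congrArg₂ _ (h3.trans ?_) rfl
          exact map_smul _ _ _
        rw [h4, norm_smul, mul_pow, hcn]
        refine mul_lt_mul_of_pos_left ?_ (inv_pos.2 hm)
        exact pow_lt_pow_left₀ (hv _ (Finset.mem_image.2 ⟨(g, x), Finset.mem_product.2
          ⟨hg, Finset.mem_univ _⟩, rfl⟩)) (norm_nonneg _) two_ne_zero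
      refine (Finset.sum_lt_sum_of_nonempty Finset.univ_nonempty fun x _ => h2 x).trans_eq ?_
      rw [Finset.sum_const, Finset.card_univ, nsmul_eq_mul, ← mul_assoc, mul_inv_cancel₀ hm.ne',
        one_mul])
  obtain ⟨x, hx⟩ : ∃ x, ψ x ≠ 0 := by
    by_contra hcon
    push Not at hcon
    exact hψ0 (PiLp.ext hcon)
  refine ⟨ψ x, hx, fun n => ?_⟩
  obtain ⟨h1, h2⟩ := cc_conj N n x
  have h3 := hPI (rp N x * n * (rp N x)⁻¹) ψ x
  rw [h1, h2, hψ] at h3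
  exact h3.symm

end Pool.Agent.H365.TF
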